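import Mathlib

/-!
MP_16b0ee, project EK, E6f: the exponent of the growth of the means is attained by `z + 1/z`.
-/

set_option autoImplicit false

open Complex MeasureTheory Metric Set
open scoped Real ComplexConjugate

namespace Pool.Agent.Helper65.EK

theorem deriv_jou {z : ℂ} (hz : z ≠ 0) : deriv (fun z : ℂ => z + z⁻¹) z = 1 - (z ^ 2)⁻¹ := by
  have h := ((hasDerivAt_id z).add (hasDerivAt_inv hz)).deriv
  have e : (fun z : ℂ => z + z⁻¹) = (id + fun z : ℂ => z⁻¹) := rfl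
  rw [e]
  rw [sub_eq_add_neg]
  exact h

/-- the derivative on a circle -/
theorem deriv_circle {R : ℝ} (hR : 1 < R) (θ : ℝ) :
    deriv (fun z : ℂ => z + z⁻¹) (R * Complex.exp (θ * I))
      = 1 - ((R ^ 2 : ℝ) : ℂ)⁻¹ * Complex.exp (((-2 * θ : ℝ) : ℂ) * I) := by
  have h0 : (R : ℂ) ≠ 0 := by
    have : R ≠ 0 := by linarith
    exact_mod_cast this
  rw [deriv_jou (mul_ne_zero h0 (Complex.exp_ne_zero _)), mul_pow, mul_inv, ← Complex.exp_nat_mul,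
    ← Complex.exp_neg]
  push_cast
  congr 3
  ring

theorem norm_deriv_ge {R : ℝ} (hR : 1 < R) (θ : ℝ) :
    1 - (R ^ 2)⁻¹ ≤ ‖deriv (fun z : ℂ => z + z⁻¹) (R * Complex.exp (θ * I))‖ := by
  rw [deriv_circle hR]
  have h1 : ‖((R ^ 2 : ℝ) : ℂ)⁻¹ * Complex.exp (((-2 * θ : ℝ) : ℂ) * I)‖ = (R ^ 2)⁻¹ := by
    rw [norm_mul, Complex.norm_exp_ofReal_mul_I, mul_one, norm_inv, Complex.norm_real,
      Real.norm_of_nonneg (by positivity)]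
  have h2 := norm_sub_norm_le (1 : ℂ) (((R ^ 2 : ℝ) : ℂ)⁻¹ * Complex.exp (((-2 * θ : ℝ) : ℂ) * I))
  rw [h1, norm_one] at h2
  exact h2

theorem norm_deriv_le {R : ℝ} (hR : 1 < R) {θ : ℝ} (h0 : 0 ≤ θ) :
    ‖deriv (fun z : ℂ => z + z⁻¹) (R * Complex.exp (θ * I))‖ ≤ (1 - (R ^ 2)⁻¹) + 2 * θ := by
  rw [deriv_circle hR]
  have hr : 0 < (R ^ 2)⁻¹ := by positivity
  have hr1 : (R ^ 2)⁻¹ < 1 := inv_lt_one_of_one_lt₀ (by nlinarith)
  have e : (1 : ℂ) - ((R ^ 2 : ℝ) : ℂ)⁻¹ * Complex.exp (((-2 * θ : ℝ) : ℂ) * I)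
      = ((1 - (R ^ 2)⁻¹ : ℝ) : ℂ)
        - ((R ^ 2 : ℝ) : ℂ)⁻¹ * (Complex.exp (((-2 * θ : ℝ) : ℂ) * I) - 1) := by
    push_cast
    ring
  have h1 : ‖Complex.exp (((-2 * θ : ℝ) : ℂ) * I) - 1‖ ≤ 2 * θ := by
    have := Real.norm_exp_I_mul_ofReal_sub_one_le (x := -2 * θ)
    rw [mul_comm I] at this
    refine this.trans ?_
    rw [Real.norm_eq_abs, abs_mul, abs_of_nonneg h0]
    norm_num
  rw [e]
  refine (norm_sub_le _ _).trans ?_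
  rw [norm_mul, norm_inv, Complex.norm_real, Complex.norm_real, Real.norm_of_nonneg (by linarith),
    Real.norm_of_nonneg (by positivity)]
  have h2 : (R ^ 2)⁻¹ * ‖Complex.exp (((-2 * θ : ℝ) : ℂ) * I) - 1‖ ≤ 1 * (2 * θ) :=
    mul_le_mul hr1.le h1 (norm_nonneg _) zero_le_one
  linarith

/-- E6f: sharpness, `ψ z = z + 1/z` -/
theorem sharp : ∀ p : ℝ, 1 < p → ∃ c : ℝ, 0 < c ∧ ∀ R : ℝ, 1 < R →
    c * (R ^ 2 / (R ^ 2 - 1)) ^ (p - 1) ≤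
      (2 * π)⁻¹ * (∫ θ in (0:ℝ)..(2 * π),
        ‖deriv (fun z : ℂ => z + z⁻¹) (R * Complex.exp (θ * I))‖ ^ (-p)) := by
  intro p hp
  refine ⟨(2 * π)⁻¹ * 3 ^ (-p), by positivity, fun R hR => ?_⟩
  have hr : 0 < (R ^ 2)⁻¹ := by positivity
  have hr1 : (R ^ 2)⁻¹ < 1 := inv_lt_one_of_one_lt₀ (by nlinarith)
  obtain ⟨d, hd⟩ : ∃ d : ℝ, d = 1 - (R ^ 2)⁻¹ := ⟨_, rfl⟩
  have hd0 : 0 < d := by rw [hd]; linarith
  have hd1 : d ≤ 1 := by rw [hd]; linarith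
  have e1 : R ^ 2 / (R ^ 2 - 1) = d⁻¹ := by
    have : R ^ 2 - 1 ≠ 0 := by nlinarith
    rw [hd]
    field_simp
  have e2 : (d⁻¹) ^ (p - 1) = d * d ^ (-p) := by
    rw [Real.inv_rpow hd0.le, ← Real.rpow_neg hd0.le]
    nth_rw 2 [← Real.rpow_one d]
    rw [← Real.rpow_add hd0]
    congr 1
    ring
  obtain ⟨F, hF⟩ : ∃ F : ℝ → ℝ, F = fun θ : ℝ =>
    ‖deriv (fun z : ℂ => z + z⁻¹) (R * Complex.exp (θ * I))‖ ^ (-p) := ⟨_, rfl⟩
  have hpos : ∀ θ : ℝ, 0 < ‖deriv (fun z : ℂ => z + z⁻¹) (R * Complex.exp (θ * I))‖ := fun θ =>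
    lt_of_lt_of_le (by rw [← hd]; exact hd0) (norm_deriv_ge hR θ)
  have hc : Continuous F := by
    rw [hF]
    refine Continuous.rpow_const ?_ (fun θ => Or.inl (hpos θ).ne')
    have : (fun θ : ℝ => ‖deriv (fun z : ℂ => z + z⁻¹) (R * Complex.exp (θ * I))‖)
        = fun θ : ℝ => ‖1 - ((R ^ 2 : ℝ) : ℂ)⁻¹ * Complex.exp (((-2 * θ : ℝ) : ℂ) * I)‖ := by
      funext θ
      rw [deriv_circle hR]
    rw [this]
    fun_prop
  have hF0 : ∀ θ, 0 ≤ F θ := by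
    intro θ
    rw [hF]
    exact Real.rpow_nonneg (norm_nonneg _) _
  have h1 : ∫ θ in (0:ℝ)..d, F θ ≤ ∫ θ in (0:ℝ)..(2 * π), F θ := by
    refine intervalIntegral.integral_mono_interval le_rfl hd0.le ?_ (Filter.Eventually.of_forall
      (fun θ => hF0 θ)) (hc.intervalIntegrable _ _)
    linarith [Real.pi_gt_three]
  have h2 : ∫ _θ in (0:ℝ)..d, (3 * d) ^ (-p) ≤ ∫ θ in (0:ℝ)..d, F θ := by
    refine intervalIntegral.integral_mono_on hd0.le (continuous_const.intervalIntegrable _ _)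
      (hc.intervalIntegrable _ _) (fun θ hθ => ?_)
    rw [hF]
    refine Real.rpow_le_rpow_of_nonpos (hpos θ) ?_ (by linarith)
    have := norm_deriv_le hR hθ.1
    rw [← hd] at this
    linarith [hθ.2]
  rw [intervalIntegral.integral_const, sub_zero, smul_eq_mul, Real.mul_rpow (by norm_num) hd0.le]
    at h2
  rw [e1, e2]
  have h3 : d * (3 ^ (-p) * d ^ (-p)) ≤ ∫ θ in (0:ℝ)..(2 * π), F θ := h2.trans h1
  have h4 : (2 * π)⁻¹ * (d * (3 ^ (-p) * d ^ (-p)))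
      ≤ (2 * π)⁻¹ * ∫ θ in (0:ℝ)..(2 * π), F θ :=
    mul_le_mul_of_nonneg_left h3 (by positivity)
  rw [hF] at h4
  refine le_trans (le_of_eq ?_) h4
  ring

end Pool.Agent.Helper65.EK
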